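import Pool.Agent.Helper242.GSR.GDefs
import Pool.Agent.Helper242.GSR.J30972
import Pool.Agent.Helper242.GSR.J31000
import Pool.Agent.Helper242.GSR.J31001
import Pool.Agent.Helper242.GSR.J31020

namespace Pool.Agent.Results.MP_1b52a1_al.SphereRatioNonConv

open Filter Topology GSR

/-- There is a finite generating set of the first Grigorchuk group for which the ratios of the
sizes of consecutive spheres do not converge. -/
theorem result : ∃ S : Finset Gr, Subgroup.closure (S : Set Gr) = ⊤ ∧
    ¬ ∃ L : ℝ, Tendsto (fun n : ℕ => (sph S (n + 1) : ℝ) / (sph S n : ℝ)) atTop (𝓝 L) := by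
  obtain ⟨D⟩ := grig_dat
  exact main_abs D grig_inf grig_sub

end Pool.Agent.Results.MP_1b52a1_al.SphereRatioNonConv
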